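import Mathlib

/-! The Baumslag-Solitar group `BS(1,2)` as a group of affine maps, and its presentation. -/

set_option autoImplicit false

namespace Pool.Agent.W417.SC

/-- dyadic numbers -/
def dy (r : ℝ) : Prop := ∃ (j : ℤ) (k : ℕ), r * 2 ^ k = j

theorem dy_zero : dy 0 := ⟨0, 0, by simp⟩
theorem dy_one : dy 1 := ⟨1, 0, by simp⟩
theorem dy_int (n : ℤ) : dy n := ⟨n, 0, by simp⟩

theorem dy_add {r s : ℝ} (hr : dy r) (hs : dy s) : dy (r + s) := by
  obtain ⟨j, k, h⟩ := hr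
  obtain ⟨j', k', h'⟩ := hs
  refine ⟨j * 2 ^ k' + j' * 2 ^ k, k + k', ?_⟩
  push_cast
  rw [← h, ← h', pow_add]
  ring

theorem dy_neg {r : ℝ} (hr : dy r) : dy (-r) := by
  obtain ⟨j, k, h⟩ := hr
  exact ⟨-j, k, by push_cast; rw [← h]; ring⟩

theorem dy_zpow_mul {r : ℝ} (hr : dy r) (m : ℤ) : dy ((2 : ℝ) ^ m * r) := by
  obtain ⟨j, k, h⟩ := hr
  rcases Int.eq_nat_or_neg m with ⟨n, rfl | rfl⟩
  · refine ⟨2 ^ n * j, k, ?_⟩
    push_cast
    rw [← h, zpow_natCast]
    ring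
  · refine ⟨j, k + n, ?_⟩
    rw [← h, zpow_neg, zpow_natCast, pow_add]
    field_simp

/-- the group `ℤ[1/2] ⋊ ℤ` -/
@[ext] structure BS where
  r : ℝ
  m : ℤ
  h : dy r

namespace BS

noncomputable instance : Mul BS := ⟨fun a b => ⟨a.r + (2 : ℝ) ^ (-a.m) * b.r, a.m + b.m,
  dy_add a.h (dy_zpow_mul b.h _)⟩⟩
instance : One BS := ⟨⟨0, 0, dy_zero⟩⟩
noncomputable instance : Inv BS := ⟨fun a => ⟨-((2 : ℝ) ^ a.m * a.r), -a.m, dy_neg (dy_zpow_mul a.h _)⟩⟩

@[simp] theorem mul_r (a b : BS) : (a * b).r = a.r + (2 : ℝ) ^ (-a.m) * b.r := rfl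
@[simp] theorem mul_m (a b : BS) : (a * b).m = a.m + b.m := rfl
@[simp] theorem one_r : (1 : BS).r = 0 := rfl
@[simp] theorem one_m : (1 : BS).m = 0 := rfl
@[simp] theorem inv_r (a : BS) : (a⁻¹).r = -((2 : ℝ) ^ a.m * a.r) := rfl
@[simp] theorem inv_m (a : BS) : (a⁻¹).m = -a.m := rfl

noncomputable instance : Group BS := Group.ofLeftAxioms
  (by
    intro a b c
    apply BS.ext
    · simp only [mul_r, mul_m, neg_add]
      rw [zpow_add₀ two_ne_zero]
      ring
    · simp only [mul_m]; ring)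
  (by
    intro a
    apply BS.ext
    · simp
    · simp)
  (by
    intro a
    apply BS.ext
    · simp
    · simp)

/-- translation by one -/
def al : BS := ⟨1, 0, dy_one⟩
/-- the stable letter -/
def sg : BS := ⟨0, 1, dy_zero⟩

theorem al_zpow (j : ℤ) : (al ^ j) = ⟨j, 0, dy_int j⟩ := by
  have hnat : ∀ n : ℕ, al ^ n = ⟨n, 0, by exact_mod_cast dy_int n⟩ := by
    intro n
    induction n with
    | zero => apply BS.ext <;> simp
    | succ n ih =>
      rw [pow_succ, ih]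
      apply BS.ext <;> simp [al]
  rcases Int.eq_nat_or_neg j with ⟨n, rfl | rfl⟩
  · rw [zpow_natCast, hnat]
    apply BS.ext <;> simp
  · rw [zpow_neg, zpow_natCast, hnat]
    apply BS.ext <;> simp

theorem sg_pow (n : ℕ) : (sg ^ n) = ⟨0, n, dy_zero⟩ := by
  induction n with
  | zero => apply BS.ext <;> simp
  | succ n ih =>
    rw [pow_succ, ih]
    apply BS.ext <;> simp [sg]

theorem nf (N M : ℕ) (j : ℤ) : sg ^ N * al ^ j * (sg ^ M)⁻¹ =
    ⟨(2 : ℝ) ^ (-(N : ℤ)) * j, N - M, dy_zpow_mul (dy_int j) _⟩ := by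
  rw [al_zpow, sg_pow, sg_pow]
  apply BS.ext
  · simp
  · simp [sub_eq_add_neg]

/-- the relator `s⁻¹ a s a⁻²` -/
def rel : FreeGroup (Fin 2) :=
  (FreeGroup.of 1)⁻¹ * FreeGroup.of 0 * FreeGroup.of 1 * (FreeGroup.of 0 ^ 2)⁻¹

/-- the presented group -/
abbrev P : Type := PresentedGroup ({rel} : Set (FreeGroup (Fin 2)))

/-- generator `a` -/
def pa : P := PresentedGroup.of 0
/-- generator `s` -/
def ps : P := PresentedGroup.of 1

theorem p_rel : ps⁻¹ * pa * ps = pa ^ 2 := by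
  have h : PresentedGroup.mk ({rel} : Set (FreeGroup (Fin 2))) rel = 1 :=
    PresentedGroup.one_of_mem (Set.mem_singleton _)
  rw [← mul_inv_eq_one, ← h]
  simp only [rel, map_mul, map_inv, map_pow]
  rfl

theorem p_rel' (j : ℤ) : pa ^ j * ps = ps * pa ^ (2 * j) := by
  have h : ps⁻¹ * pa ^ j * ps = pa ^ (2 * j) := by
    have h1 := p_rel
    have h2 : (ps⁻¹ * pa * ps) ^ j = ps⁻¹ * pa ^ j * ps := by
      have := conj_zpow (i := j) (a := ps⁻¹) (b := pa)
      rw [inv_inv] at this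
      exact this
    rw [← h2, h1, zpow_mul]
    norm_cast
  rw [← h]
  group

theorem p_rel'' (j : ℤ) : ps⁻¹ * pa ^ j = pa ^ (2 * j) * ps⁻¹ := by
  have h := p_rel' j
  rw [inv_mul_eq_iff_eq_mul, ← mul_assoc, ← h]
  group

theorem p_pow (N : ℕ) (j : ℤ) : pa ^ j * ps ^ N = ps ^ N * pa ^ (2 ^ N * j) := by
  induction N generalizing j with
  | zero => simp
  | succ N ih =>
    rw [pow_succ, ← mul_assoc, ih, mul_assoc, p_rel', ← mul_assoc]
    congr 2
    ring

/-- the normal form in the presented group -/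
theorem p_nf (x : P) : ∃ (N M : ℕ) (j : ℤ), x = ps ^ N * pa ^ j * (ps ^ M)⁻¹ := by
  have key : ∀ x : P, (∃ (N M : ℕ) (j : ℤ), x = ps ^ N * pa ^ j * (ps ^ M)⁻¹) →
      (∀ e : ℤ, ∃ (N M : ℕ) (j : ℤ), pa ^ e * x = ps ^ N * pa ^ j * (ps ^ M)⁻¹) ∧
      (∃ (N M : ℕ) (j : ℤ), ps * x = ps ^ N * pa ^ j * (ps ^ M)⁻¹) ∧
      (∃ (N M : ℕ) (j : ℤ), ps⁻¹ * x = ps ^ N * pa ^ j * (ps ^ M)⁻¹) := by
    rintro x ⟨N, M, j, rfl⟩
    refine ⟨?_, ?_, ?_⟩
    · intro e
      refine ⟨N, M, 2 ^ N * e + j, ?_⟩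
      rw [← mul_assoc, ← mul_assoc, p_pow, zpow_add]
      group
    · exact ⟨N + 1, M, j, by rw [pow_succ']; group⟩
    · cases N with
      | zero =>
        refine ⟨0, M + 1, 2 * j, ?_⟩
        rw [pow_zero, one_mul, ← mul_assoc, p_rel'', pow_succ]
        group
      | succ N => exact ⟨N, M, j, by rw [pow_succ']; group⟩
  have hx : x ∈ Subgroup.closure (Set.range (PresentedGroup.of
      (rels := ({rel} : Set (FreeGroup (Fin 2)))))) := by
    rw [PresentedGroup.closure_range_of]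
    trivial
  induction hx using Subgroup.closure_induction_left with
  | one => exact ⟨0, 0, 0, by simp⟩
  | mul_left g hg y hy ih =>
    obtain ⟨i, rfl⟩ := hg
    fin_cases i
    · have := (key y ih).1 1
      rwa [zpow_one] at this
    · exact (key y ih).2.1
  | inv_mul_cancel g hg y hy ih =>
    obtain ⟨i, rfl⟩ := hg
    fin_cases i
    · have := (key y ih).1 (-1)
      rwa [zpow_neg, zpow_one] at this
    · exact (key y ih).2.2

theorem rel_ok : ∀ r ∈ ({rel} : Set (FreeGroup (Fin 2))),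
    FreeGroup.lift ![al, sg] r = 1 := by
  intro r hr
  rw [Set.mem_singleton_iff] at hr
  subst hr
  simp only [rel, map_mul, map_inv, map_pow, FreeGroup.lift_apply_of, Matrix.cons_val_zero,
    Matrix.cons_val_one]
  apply BS.ext
  · simp [al, sg, sq]
    norm_num
  · simp [al, sg, sq]

/-- the homomorphism from the presented group -/
noncomputable def phi : P →* BS := PresentedGroup.toGroup rel_ok

theorem phi_pa : phi pa = al := PresentedGroup.toGroup.of rel_ok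
theorem phi_ps : phi ps = sg := PresentedGroup.toGroup.of rel_ok

theorem phi_bij : Function.Bijective phi := by
  have hnf : ∀ (N M : ℕ) (j : ℤ), phi (ps ^ N * pa ^ j * (ps ^ M)⁻¹) =
      ⟨(2 : ℝ) ^ (-(N : ℤ)) * j, N - M, dy_zpow_mul (dy_int j) _⟩ := by
    intro N M j
    rw [map_mul, map_mul, map_inv, map_pow, map_pow, map_zpow, phi_pa, phi_ps, nf]
  constructor
  · rw [injective_iff_map_eq_one]
    intro x hx
    obtain ⟨N, M, j, rfl⟩ := p_nf x
    rw [hnf] at hx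
    have h1 := congrArg BS.r hx
    have h2 := congrArg BS.m hx
    simp only [one_r, one_m, mul_eq_zero] at h1 h2
    have h3 : (j : ℝ) = 0 := h1.resolve_left (zpow_ne_zero _ two_ne_zero)
    have h4 : j = 0 := by exact_mod_cast h3
    have h5 : N = M := by omega
    rw [h4, h5]
    simp
  · rintro ⟨r, m, j, k, hj⟩
    refine ⟨ps ^ (k + m.toNat) * pa ^ (2 ^ m.toNat * j) * (ps ^ (k + (-m).toNat))⁻¹, ?_⟩
    rw [hnf]
    apply BS.ext
    · show (2 : ℝ) ^ (-((k + m.toNat : ℕ) : ℤ)) * ((2 ^ m.toNat * j : ℤ) : ℝ) = r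
      rw [zpow_neg, zpow_natCast, pow_add]
      push_cast
      rw [← hj]
      field_simp
    · show ((k + m.toNat : ℕ) : ℤ) - ((k + (-m).toNat : ℕ) : ℤ) = m
      omega

theorem fp : Group.IsFinitelyPresented BS :=
  Group.IsFinitelyPresented.equiv (MulEquiv.ofBijective phi phi_bij)

theorem fp_op : Group.IsFinitelyPresented BSᵐᵒᵖ :=
  have := fp
  Group.IsFinitelyPresented.equiv (MulEquiv.inv' BS)

end BS

end Pool.Agent.W417.SC
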