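import Pool.Agent.W622.SC.Stmts

set_option autoImplicit false

open unitInterval Topology ContinuousMap

namespace Pool.Agent.W417.SC

open Pool.Agent.W622.SC

theorem map_fromPath {X Y : Type} [TopologicalSpace X] [TopologicalSpace Y] (f : C(X, Y)) (x : X)
    (γ : Path x x) : FundamentalGroup.map f x (FundamentalGroup.fromPath (Quotient.mk _ γ)) =
      FundamentalGroup.fromPath (Quotient.mk _ (γ.map f.continuous)) := rfl

theorem main : S_fp := by
  intro X K _ _ k0 i r hri φ H1 H2 hfp
  let ι : FundamentalGroup K k0 →* FundamentalGroup X (i k0) := FundamentalGroup.map i k0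
  have hinj : Function.Injective ι := by
    intro a b hab
    induction a using Quotient.inductionOn with | _ γ =>
    induction b using Quotient.inductionOn with | _ δ =>
    have h1 : (γ.map i.continuous).Homotopic (δ.map i.continuous) := Quotient.exact hab
    obtain ⟨H⟩ := h1
    apply Quotient.sound
    have h2 : (((γ.map i.continuous).map r.continuous).cast (hri k0).symm (hri k0).symm).Homotopic
        (((δ.map i.continuous).map r.continuous).cast (hri k0).symm (hri k0).symm) :=
      ⟨(H.map r).pathCast _ _⟩
    have e : ∀ γ : Path k0 k0,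
        ((γ.map i.continuous).map r.continuous).cast (hri k0).symm (hri k0).symm = γ := by
      intro γ
      ext t
      exact hri (γ t)
    rw [e, e] at h2
    exact h2
  have hker : ∀ a, ι a ∈ φ.ker := by
    intro a
    induction a using Quotient.inductionOn with | _ γ =>
    rw [MonoidHom.mem_ker]
    exact H2 γ
  let ι' : FundamentalGroup K k0 →* φ.ker := ι.codRestrict φ.ker hker
  have hbij : Function.Bijective ι' := by
    constructor
    · intro a b hab
      exact hinj (congrArg Subtype.val hab)
    · rintro ⟨b, hb⟩
      induction b using Quotient.inductionOn with | _ γ =>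
      obtain ⟨δ, hδ⟩ := H1 γ hb
      refine ⟨Quotient.mk _ δ, ?_⟩
      apply Subtype.ext
      exact (Quotient.sound hδ).symm
  let e : FundamentalGroup K k0 ≃* φ.ker := MulEquiv.ofBijective ι' hbij
  obtain ⟨n, s, hs, ⟨e2⟩⟩ := Group.IsFinitelyPresented.exists_mulEquiv_presentedGroup
    (G := FundamentalGroup K k0)
  refine ⟨n, hs.toFinset, ⟨?_⟩⟩
  rw [Set.Finite.coe_toFinset]
  exact e.symm.trans e2

end Pool.Agent.W417.SC
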