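import Pool.Agent.W622.SC.Stmts
import Pool.Agent.W417.SC.BS

/-! The universal cover `ℝ × tree` of the complex `KK`. -/

set_option autoImplicit false

open unitInterval Topology ContinuousMap

namespace Pool.Agent.W417.SC

open Pool.Agent.W622.SC

noncomputable section

/-- the dyadic numbers with the discrete topology -/
@[ext] structure Dy where
  v : ℝ
  h : dy v

instance : TopologicalSpace Dy := ⊥
instance : DiscreteTopology Dy := ⟨rfl⟩

/-- the flow map `ℝ² → KK` -/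
def ff (p : ℝ × ℝ) : KK :=
  MT.mk dbl ((((2 : ℝ) ^ ⌊p.2⌋ * p.1 : ℝ) : Cir), ⟨Int.fract p.2, Int.fract_nonneg _,
    (Int.fract_lt_one _).le⟩)

/-- the formula on the strip `n ≤ t ≤ n + 1` -/
theorem ff_strip (n : ℤ) (y t : ℝ) (h : t - n ∈ I) :
    ff (y, t) = MT.mk dbl ((((2 : ℝ) ^ n * y : ℝ) : Cir), ⟨t - n, h⟩) := by
  by_cases h1 : t - n = 1
  · have ht : t = n + 1 := by linarith
    have hfl : ⌊t⌋ = n + 1 := by rw [ht]; simp
    have hfr : Int.fract t = 0 := by rw [ht]; simp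
    unfold ff
    have e1 : (⟨t - n, h⟩ : I) = 1 := Subtype.ext h1
    have e2 : (⟨Int.fract t, Int.fract_nonneg _, (Int.fract_lt_one _).le⟩ : I) = 0 :=
      Subtype.ext hfr
    simp only
    rw [e1, e2, MT.glue, hfl]
    congr 2
    rw [dbl_apply, ← AddCircle.coe_add]
    congr 1
    rw [zpow_add₀ two_ne_zero, zpow_one]
    ring
  · have hfl : ⌊t⌋ = n := by
      rw [Int.floor_eq_iff]
      have := h.1
      have := lt_of_le_of_ne h.2 h1
      constructor <;> linarith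
    unfold ff
    simp only
    rw [hfl]
    congr 2
    apply Subtype.ext
    show Int.fract t = t - n
    rw [Int.fract, hfl]

theorem continuous_ff : Continuous ff := by
  have hlf : LocallyFinite (fun n : ℤ => {p : ℝ × ℝ | p.2 - n ∈ I}) := by
    intro p
    refine ⟨{q | |q.2 - p.2| < 1}, ?_, ?_⟩
    · apply IsOpen.mem_nhds
      · exact isOpen_lt (by fun_prop) continuous_const
      · simp
    · apply (Set.finite_Icc (⌊p.2⌋ - 3) (⌊p.2⌋ + 3)).subset
      rintro n ⟨q, hq1, hq2⟩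
      have h1 : 0 ≤ q.2 - n := hq1.1
      have h2 : q.2 - n ≤ 1 := hq1.2
      have h3 : |q.2 - p.2| < 1 := hq2
      rw [abs_lt] at h3
      have h4 := Int.floor_le p.2
      have h5 := Int.lt_floor_add_one p.2
      constructor
      · have : ((⌊p.2⌋ - 3 : ℤ) : ℝ) ≤ n := by push_cast; linarith
        exact_mod_cast this
      · have : (n : ℝ) ≤ ((⌊p.2⌋ + 3 : ℤ) : ℝ) := by push_cast; linarith
        exact_mod_cast this
  apply hlf.continuous
  · rw [Set.eq_univ_iff_forall]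
    intro p
    rw [Set.mem_iUnion]
    refine ⟨⌊p.2⌋, ?_⟩
    constructor
    · exact sub_nonneg.mpr (Int.floor_le _)
    · have := Int.lt_floor_add_one p.2
      linarith
  · intro n
    exact isClosed_Icc.preimage (f := fun p : ℝ × ℝ => p.2 - (n : ℝ)) (by fun_prop)
  · intro n
    rw [continuousOn_iff_continuous_domRestrict]
    have : ({p : ℝ × ℝ | p.2 - n ∈ I}.domRestrict ff) = fun p =>
        MT.mk dbl ((((2 : ℝ) ^ n * p.1.1 : ℝ) : Cir), ⟨p.1.2 - n, p.2⟩) := by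
      funext p
      exact ff_strip n p.1.1 p.1.2 p.2
    rw [this]
    fun_prop

/-- triples `(y, c, t)` -/
abbrev Tr : Type := ℝ × Dy × ℝ

/-- identification of the sheets above the height -/
def RR (p q : Tr) : Prop :=
  p.1 = q.1 ∧ p.2.2 = q.2.2 ∧ ∃ k : ℤ, p.2.1.v - q.2.1.v = k * (2 : ℝ) ^ (-⌊p.2.2⌋)

theorem RR_equiv : Equivalence RR where
  refl p := ⟨rfl, rfl, 0, by simp⟩
  symm := by
    rintro p q ⟨h1, h2, k, hk⟩
    refine ⟨h1.symm, h2.symm, -k, ?_⟩
    rw [← h2]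
    push_cast
    linarith
  trans := by
    rintro p q r ⟨h1, h2, k, hk⟩ ⟨h3, h4, l, hl⟩
    refine ⟨h1.trans h3, h2.trans h4, k + l, ?_⟩
    rw [← h2] at hl
    push_cast
    rw [add_mul, ← hk, ← hl]
    ring

/-- the universal cover -/
def Kh : Type := Quotient (⟨RR, RR_equiv⟩ : Setoid Tr)

instance : TopologicalSpace Kh :=
  inferInstanceAs (TopologicalSpace (Quotient (⟨RR, RR_equiv⟩ : Setoid Tr)))

/-- class of a triple -/
def Kh.mk (p : Tr) : Kh := Quotient.mk (⟨RR, RR_equiv⟩ : Setoid Tr) p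

theorem Kh.isQuotientMap : IsQuotientMap Kh.mk := isQuotientMap_quotient_mk'

theorem Kh.ind {P : Kh → Prop} (h : ∀ y c t, P (Kh.mk (y, c, t))) (x : Kh) : P x := by
  obtain ⟨⟨y, c, t⟩, rfl⟩ := Quotient.mk_surjective x
  exact h y c t

theorem Kh.mk_eq {p q : Tr} : Kh.mk p = Kh.mk q ↔ RR p q := Quotient.eq

/-- the covering map -/
def qq : Kh → KK := Quotient.lift (fun p : Tr => ff (p.1 - p.2.1.v, p.2.2)) (by
  rintro ⟨y, c, t⟩ ⟨y', c', t'⟩ ⟨h1, h2, k, hk⟩
  simp only at h1 h2 hk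
  subst h1 h2
  unfold ff
  simp only
  congr 2
  rw [← sub_eq_zero, ← AddCircle.coe_sub]
  have : (2 : ℝ) ^ ⌊t⌋ * (y - c.v) - 2 ^ ⌊t⌋ * (y - c'.v) = ((-k : ℤ) : ℝ) := by
    have e : (2 : ℝ) ^ ⌊t⌋ * (y - c.v) - 2 ^ ⌊t⌋ * (y - c'.v) = - (2 ^ ⌊t⌋ * (c.v - c'.v)) := by
      ring
    rw [e, hk, zpow_neg]
    push_cast
    field_simp
  rw [this]
  rw [AddCircle.coe_eq_zero_iff]
  exact ⟨-k, by simp⟩)

theorem qq_mk (y : ℝ) (c : Dy) (t : ℝ) : qq (Kh.mk (y, c, t)) = ff (y - c.v, t) := rfl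

theorem continuous_v : Continuous Dy.v := continuous_of_discreteTopology

theorem continuous_qq : Continuous qq := by
  rw [Kh.isQuotientMap.continuous_iff]
  have h := continuous_v
  show Continuous (fun p : Tr => ff (p.1 - p.2.1.v, p.2.2))
  exact continuous_ff.comp (by fun_prop)

/-- the action of `BS` on triples -/
def act (g : BS) (p : Tr) : Tr :=
  ((2 : ℝ) ^ (-g.m) * p.1 + g.r, ⟨(2 : ℝ) ^ (-g.m) * p.2.1.v + g.r,
    dy_add (dy_zpow_mul p.2.1.h _) g.h⟩, p.2.2 + g.m)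

theorem act_RR (g : BS) {p q : Tr} (h : RR p q) : RR (act g p) (act g q) := by
  obtain ⟨h1, h2, k, hk⟩ := h
  refine ⟨?_, ?_, k, ?_⟩
  · simp only [act, h1]
  · simp only [act, h2]
  · simp only [act]
    have e : (2 : ℝ) ^ (-g.m) * p.2.1.v + g.r - (2 ^ (-g.m) * q.2.1.v + g.r) =
      2 ^ (-g.m) * (p.2.1.v - q.2.1.v) := by ring
    rw [e, hk, Int.floor_add_intCast, neg_add, zpow_add₀ two_ne_zero]
    ring

theorem continuous_act (g : BS) : Continuous (act g) := by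
  unfold act
  have h : Continuous (fun c : Dy => (⟨(2 : ℝ) ^ (-g.m) * c.v + g.r,
    dy_add (dy_zpow_mul c.h _) g.h⟩ : Dy)) := continuous_of_discreteTopology
  exact (by fun_prop : Continuous fun p : Tr => (2 : ℝ) ^ (-g.m) * p.1 + g.r).prodMk
    ((h.comp (continuous_fst.comp continuous_snd)).prodMk (by fun_prop))

instance : SMul BS Kh := ⟨fun g => Quotient.map' (act g) (fun _ _ h => act_RR g h)⟩

theorem smul_mk (g : BS) (p : Tr) : g • Kh.mk p = Kh.mk (act g p) := rfl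

instance : MulAction BS Kh where
  one_smul x := by
    induction x using Kh.ind with | h y c t =>
    rw [smul_mk]
    congr 1
    unfold act
    simp
  mul_smul g g' x := by
    induction x using Kh.ind with | h y c t =>
    rw [smul_mk, smul_mk, smul_mk]
    congr 1
    unfold act
    simp only [BS.mul_m, BS.mul_r, neg_add, Prod.mk.injEq, Dy.mk.injEq]
    rw [zpow_add₀ two_ne_zero]
    push_cast
    refine ⟨by ring, by ring, by ring⟩

instance : ContinuousConstSMul BS Kh where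
  continuous_const_smul g := by
    rw [Kh.isQuotientMap.continuous_iff]
    exact Kh.isQuotientMap.continuous.comp (continuous_act g)

theorem qq_smul (g : BS) (x : Kh) : qq (g • x) = qq x := by
  induction x using Kh.ind with | h y c t =>
  rw [smul_mk]
  show ff ((2 : ℝ) ^ (-g.m) * y + g.r - ((2 : ℝ) ^ (-g.m) * c.v + g.r), t + g.m) =
    ff (y - c.v, t)
  unfold ff
  congr 2
  · congr 1
    rw [Int.floor_add_intCast, zpow_add₀ two_ne_zero, zpow_neg]
    have : (2 : ℝ) ^ g.m ≠ 0 := zpow_ne_zero _ two_ne_zero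
    field_simp
    ring
  · apply Subtype.ext
    show Int.fract (t + g.m) = Int.fract t
    rw [Int.fract_add_intCast]

theorem ff_eq {y y' t t' : ℝ} (h : ff (y, t) = ff (y', t')) :
    Int.fract t = Int.fract t' ∧ ∃ k : ℤ, (2 : ℝ) ^ ⌊t⌋ * y - (2 : ℝ) ^ ⌊t'⌋ * y' = k := by
  unfold ff at h
  rw [MT.mk_eq_iff] at h
  unfold MTnf at h
  have h1 : ∀ t : ℝ, (⟨Int.fract t, Int.fract_nonneg _, (Int.fract_lt_one _).le⟩ : I) ≠ 1 := by
    intro t h0
    have := congrArg Subtype.val h0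
    exact (Int.fract_lt_one t).ne this
  rw [if_neg (h1 t), if_neg (h1 t')] at h
  rw [Prod.mk.injEq] at h
  refine ⟨congrArg Subtype.val h.2, ?_⟩
  have h2 := h.1
  simp only at h2
  rw [← sub_eq_zero, ← AddCircle.coe_sub, AddCircle.coe_eq_zero_iff] at h2
  obtain ⟨k, hk⟩ := h2
  exact ⟨k, by rw [← hk]; simp⟩

theorem qq_eq_iff (x x' : Kh) : qq x = qq x' ↔ x ∈ MulAction.orbit BS x' := by
  constructor
  · intro h
    induction x using Kh.ind with | h y c t =>
    induction x' using Kh.ind with | h y' c' t' =>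
    rw [qq_mk, qq_mk] at h
    obtain ⟨h1, k, hk⟩ := ff_eq h
    set n := ⌊t⌋ with hn
    set n' := ⌊t'⌋ with hn'
    have ht : t' + ((n - n' : ℤ) : ℝ) = t := by
      have e1 : t = n + Int.fract t := (Int.floor_add_fract t).symm
      have e2 : t' = n' + Int.fract t' := (Int.floor_add_fract t').symm
      push_cast
      rw [h1] at e1
      linarith
    have hy : y = c.v + (2 : ℝ) ^ (-(n - n')) * (y' - c'.v) + (2 : ℝ) ^ (-n) * k := by
      have hne : (2 : ℝ) ^ n ≠ 0 := zpow_ne_zero _ two_ne_zero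
      rw [neg_sub, zpow_sub₀ two_ne_zero, zpow_neg, ← hk]
      field_simp
      ring
    have hr : dy (y - (2 : ℝ) ^ (-(n - n')) * y') := by
      have e : y - (2 : ℝ) ^ (-(n - n')) * y' =
          c.v + (-((2 : ℝ) ^ (-(n - n')) * c'.v) + (2 : ℝ) ^ (-n) * k) := by
        linarith
      rw [e]
      exact dy_add c.h (dy_add (dy_neg (dy_zpow_mul c'.h _)) (dy_zpow_mul (dy_int k) _))
    refine ⟨⟨y - (2 : ℝ) ^ (-(n - n')) * y', n - n', hr⟩, ?_⟩
    show Kh.mk (act _ (y', c', t')) = Kh.mk (y, c, t)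
    rw [Kh.mk_eq]
    refine ⟨?_, ht, k, ?_⟩
    · simp only [act]
      ring
    · have e : ⌊t' + ((n - n' : ℤ) : ℝ)⌋ = n := by rw [ht]
      simp only [act]
      rw [e]
      linarith
  · rintro ⟨g, rfl⟩
    exact qq_smul g x'

/-- saturated open sets used for the covering -/
theorem sat_open (V : Set Tr) (hV : IsOpen V) (hsat : ∀ p q, RR p q → p ∈ V → q ∈ V) :
    IsOpen (Kh.mk '' V) ∧ ∀ p, Kh.mk p ∈ Kh.mk '' V ↔ p ∈ V := by
  have h2 : ∀ p, Kh.mk p ∈ Kh.mk '' V ↔ p ∈ V := by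
    intro p
    constructor
    · rintro ⟨q, hq, hqp⟩
      exact hsat q p (Kh.mk_eq.mp hqp) hq
    · intro h
      exact ⟨p, h, rfl⟩
  refine ⟨?_, h2⟩
  rw [← Kh.isQuotientMap.isOpen_preimage]
  have : Kh.mk ⁻¹' (Kh.mk '' V) = V := by
    ext p
    exact h2 p
  rwa [this]

theorem mult_le {n N : ℤ} (h : n ≤ N) (k : ℤ) : ∃ l : ℤ, (k : ℝ) * (2 : ℝ) ^ (-n) =
    l * (2 : ℝ) ^ (-N) := by
  refine ⟨k * 2 ^ (N - n).toNat, ?_⟩
  push_cast
  have e : ((2 : ℝ) ^ (N - n).toNat) = (2 : ℝ) ^ (N - n) := by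
    rw [← zpow_natCast, Int.toNat_of_nonneg (by omega)]
  rw [e, mul_assoc, ← zpow_add₀ two_ne_zero]
  congr 2
  ring

theorem disj (x : Kh) : ∃ U ∈ 𝓝 x, ∀ g : BS, ((g • ·) '' U ∩ U).Nonempty → g = 1 := by
  induction x using Kh.ind with | h y0 c0 t0 =>
  set N : ℤ := ⌊t0⌋ + 2 with hN
  set ε : ℝ := (2 : ℝ) ^ (-N) / 2 with hε
  have hε0 : 0 < ε := by positivity
  let V : Set Tr := {p | |p.1 - y0| < ε ∧ |p.2.2 - t0| < 1 / 2 ∧
    ∃ k : ℤ, p.2.1.v - c0.v = k * (2 : ℝ) ^ (-N)}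
  have hVo : IsOpen V := by
    have hVe : V = {p : Tr | |p.1 - y0| < ε} ∩ ({p : Tr | |p.2.2 - t0| < 1 / 2} ∩
      {p : Tr | ∃ k : ℤ, p.2.1.v - c0.v = k * (2 : ℝ) ^ (-N)}) := rfl
    rw [hVe]
    apply IsOpen.inter
    · exact isOpen_lt (by fun_prop) continuous_const
    apply IsOpen.inter
    · exact isOpen_lt (by fun_prop) continuous_const
    · have : IsOpen {c : Dy | ∃ k : ℤ, c.v - c0.v = k * (2 : ℝ) ^ (-N)} := isOpen_discrete _
      exact this.preimage (continuous_fst.comp continuous_snd)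
  have hfl : ∀ t : ℝ, |t - t0| < 1 / 2 → ⌊t⌋ ≤ N := by
    intro t ht
    rw [abs_lt] at ht
    have h1 := Int.lt_floor_add_one t0
    have h2 := Int.floor_le t
    have h3 : (⌊t⌋ : ℝ) < N := by rw [hN]; push_cast; linarith
    exact_mod_cast h3.le
  have hsat : ∀ p q, RR p q → p ∈ V → q ∈ V := by
    rintro p q ⟨h1, h2, k, hk⟩ ⟨h3, h4, l, hl⟩
    obtain ⟨k', hk'⟩ := mult_le (hfl _ h4) k
    refine ⟨by rw [← h1]; exact h3, by rw [← h2]; exact h4, l - k', ?_⟩
    push_cast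
    rw [sub_mul, ← hl, ← hk', ← hk]
    ring
  obtain ⟨hUo, hU⟩ := sat_open V hVo hsat
  refine ⟨Kh.mk '' V, hUo.mem_nhds ?_, ?_⟩
  · rw [hU]
    exact ⟨by simpa using hε0, by simp, 0, by simp⟩
  · rintro g ⟨z, ⟨x, ⟨p, hp, rfl⟩, rfl⟩, hz⟩
    have hz' : Kh.mk (act g p) ∈ Kh.mk '' V := hz
    rw [hU] at hz'
    obtain ⟨a1, a2, k, hk⟩ := hp
    obtain ⟨b1, b2, l, hl⟩ := hz'
    simp only [act] at b1 b2 hl
    have hm : g.m = 0 := by
      rw [abs_lt] at a2 b2
      have h1 : (g.m : ℝ) < 1 := by linarith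
      have h2 : (-1 : ℝ) < g.m := by linarith
      have h1' : g.m < 1 := by exact_mod_cast h1
      have h2' : -1 < g.m := by exact_mod_cast h2
      omega
    rw [hm] at b1 hl
    simp only [neg_zero, zpow_zero, one_mul] at b1 hl
    have hr : g.r = (l - k) * (2 : ℝ) ^ (-N) := by
      rw [sub_mul, ← hl, ← hk]; ring
    have habs : |g.r| < (2 : ℝ) ^ (-N) := by
      have e : g.r = (p.1 + g.r - y0) - (p.1 - y0) := by ring
      rw [e]
      calc |(p.1 + g.r - y0) - (p.1 - y0)| ≤ |p.1 + g.r - y0| + |p.1 - y0| := abs_sub _ _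
        _ < ε + ε := add_lt_add b1 a1
        _ = (2 : ℝ) ^ (-N) := by rw [hε]; ring
    have hpos : (0 : ℝ) < (2 : ℝ) ^ (-N) := by positivity
    have hlk : l - k = 0 := by
      rw [hr, abs_mul, abs_of_pos hpos] at habs
      have h1 : |((l : ℝ) - k)| < 1 := by
        by_contra hcon
        push Not at hcon
        nlinarith
      have h2 : |((l - k : ℤ) : ℝ)| < 1 := by push_cast; exact h1
      have h3 : |l - k| < 1 := by exact_mod_cast h2
      exact Int.abs_lt_one_iff.mp h3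
    have hr0 : g.r = 0 := by
      rw [hr]
      have : ((l : ℝ) - k) = 0 := by exact_mod_cast hlk
      rw [this, zero_mul]
    exact BS.ext hr0 hm

theorem quot_qq : IsQuotientMap qq := by
  have h1 : IsQuotientMap (Prod.map (fun y : ℝ => (y : Cir)) (id : I → I)) :=
    (QuotientAddGroup.isOpenQuotientMap_mk.prodMap IsOpenQuotientMap.id).isQuotientMap
  have h2 : IsQuotientMap (MT.mk dbl ∘ Prod.map (fun y : ℝ => (y : Cir)) (id : I → I)) :=
    (MT.isQuotientMap dbl).comp h1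
  let g : ℝ × I → Kh := fun p => Kh.mk (p.1, ⟨0, dy_zero⟩, p.2)
  have hg : Continuous g := Kh.isQuotientMap.continuous.comp (by fun_prop)
  have h3 : qq ∘ g = MT.mk dbl ∘ Prod.map (fun y : ℝ => (y : Cir)) (id : I → I) := by
    funext p
    show ff (p.1 - 0, p.2) = MT.mk dbl (((p.1 : ℝ) : Cir), p.2)
    rw [ff_strip 0 _ _ (by rw [Int.cast_zero, sub_zero]; exact p.2.2)]
    congr 2
    · simp
    · apply Subtype.ext
      simp
  apply IsQuotientMap.of_comp hg continuous_qq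
  rw [h3]
  exact h2

theorem cov : IsQuotientCoveringMap qq BS :=
  { quot_qq with
    continuous_const_smul := fun g => continuous_const_smul g
    apply_eq_iff_mem_orbit := fun {_ _} => qq_eq_iff _ _
    disjoint := disj }

theorem khat : S_Khat := by
  refine ⟨Kh, inferInstance, BS, inferInstance, inferInstance, qq,
    ⟨fun s : I => Kh.mk ((s : ℝ), ⟨0, dy_zero⟩, 0),
      Kh.isQuotientMap.continuous.comp (by fun_prop)⟩, BS.al, cov, ?_, ?_, ?_⟩
  · intro s
    show ff ((s : ℝ) - 0, 0) = _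
    rw [ff_strip 0 _ _ (by simp)]
    congr 2
    · simp
    · apply Subtype.ext
      simp
  · show Kh.mk (((1 : I) : ℝ), ⟨0, dy_zero⟩, 0) = Kh.mk (act BS.al (((0 : I) : ℝ), ⟨0, dy_zero⟩, 0))
    rw [Kh.mk_eq]
    refine ⟨?_, ?_, -1, ?_⟩
    · simp [act, BS.al]
    · simp [act, BS.al]
    · simp [act, BS.al]
  · intro n hn h
    have h1 := BS.al_zpow n
    rw [zpow_natCast, h] at h1
    have h2 : (0 : ℝ) = ((n : ℤ) : ℝ) := congrArg BS.r h1
    have h3 : (n : ℤ) = 0 := by exact_mod_cast h2.symm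
    omega

end

end Pool.Agent.W417.SC
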