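import Pool.Agent.W417.SC.KH

/-! S_Khat -/

namespace Pool.Agent.W417.SC.KHAT

theorem main : Pool.Agent.W622.SC.S_Khat := Pool.Agent.W417.SC.khat

end Pool.Agent.W417.SC.KHAT
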