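import Pool.Agent.W417.SC.KH

/-! `Kh` is simply connected, so `π₁(KK) = BS(1,2)` is finitely presented. -/

set_option autoImplicit false

open unitInterval Topology ContinuousMap

namespace Pool.Agent.W417.SC

open Pool.Agent.W622.SC

noncomputable section

/-- the height -/
def hh : Kh → ℝ := Quotient.lift (fun p : Tr => p.2.2) (by
  rintro p q ⟨-, h, -⟩
  exact h)

theorem hh_mk (p : Tr) : hh (Kh.mk p) = p.2.2 := rfl

theorem continuous_hh : Continuous hh := by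
  rw [Kh.isQuotientMap.continuous_iff]
  show Continuous (fun p : Tr => p.2.2)
  fun_prop

/-- the upward flow to height at least `N`, and contraction of `y` -/
def fl0 (N : ℝ) (s : I) (p : Tr) : Tr :=
  ((1 - (s : ℝ)) * p.1, p.2.1, p.2.2 + (s : ℝ) * max (N - p.2.2) 0)

theorem fl0_RR (N : ℝ) (s : I) {p q : Tr} (h : RR p q) : RR (fl0 N s p) (fl0 N s q) := by
  obtain ⟨h1, h2, k, hk⟩ := h
  have hle : ⌊p.2.2⌋ ≤ ⌊p.2.2 + (s : ℝ) * max (N - p.2.2) 0⌋ := by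
    apply Int.floor_le_floor
    have := mul_nonneg s.2.1 (le_max_right (N - p.2.2) 0)
    linarith
  obtain ⟨l, hl⟩ := mult_le hle k
  refine ⟨?_, ?_, l, ?_⟩
  · simp only [fl0, h1]
  · simp only [fl0, h2]
  · simp only [fl0]
    rw [hk, hl]

/-- flow on `Kh`, uncurried on triples -/
def flG (N : ℝ) : C(Tr × I, Kh) :=
  ⟨fun z => Kh.mk (fl0 N z.2 z.1), Kh.isQuotientMap.continuous.comp (by
    unfold fl0
    fun_prop)⟩

/-- flow on `Kh` -/
def FL (N : ℝ) : Kh → C(I, Kh) := Quotient.lift (fun p : Tr => (flG N).curry p) (by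
  intro p q h
  ext s
  exact Kh.mk_eq.mpr (fl0_RR N s h))

theorem FL_mk (N : ℝ) (p : Tr) (s : I) : FL N (Kh.mk p) s = Kh.mk (fl0 N s p) := rfl

theorem continuous_FL (N : ℝ) : Continuous (FL N) := by
  rw [Kh.isQuotientMap.continuous_iff]
  exact ((flG N).curry).continuous

/-- the part below the level `N` in the sheet of `0` -/
def VN (N : ℤ) : Set Tr := {p | p.2.2 ≤ N ∧ ∃ k : ℤ, p.2.1.v = k * (2 : ℝ) ^ (-N)}

/-- the corresponding subset of `Kh` -/
def ZN (N : ℤ) : Set Kh := Kh.mk '' VN N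

theorem ZN_flow (N : ℤ) (x : Kh) (hx : x ∈ ZN N) (s : I) : FL N x s ∈ ZN N := by
  obtain ⟨p, ⟨h1, k, hk⟩, rfl⟩ := hx
  rw [FL_mk]
  refine ⟨fl0 N s p, ⟨?_, k, hk⟩, rfl⟩
  show p.2.2 + (s : ℝ) * max ((N : ℝ) - p.2.2) 0 ≤ N
  rw [max_eq_left (by linarith)]
  have h2 := s.2.2
  nlinarith [s.2.1]

theorem base_mem (N : ℤ) : Kh.mk (0, ⟨0, dy_zero⟩, (N : ℝ)) ∈ ZN N :=
  ⟨_, ⟨le_rfl, 0, by simp⟩, rfl⟩

theorem ZN_contractible (N : ℤ) : ContractibleSpace (ZN N) := by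
  rw [contractible_iff_id_nullhomotopic]
  refine ⟨⟨_, base_mem N⟩, ⟨{
    toFun := fun z => ⟨FL N z.2.1 z.1, ZN_flow N _ z.2.2 _⟩
    continuous_toFun := by
      apply Continuous.subtype_mk
      exact ((continuous_FL N).comp (continuous_subtype_val.comp continuous_snd)).eval
        continuous_fst
    map_zero_left := ?_
    map_one_left := ?_ }⟩⟩
  · rintro ⟨x, p, hp, rfl⟩
    apply Subtype.ext
    show FL N (Kh.mk p) 0 = Kh.mk p
    rw [FL_mk]
    congr 1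
    simp [fl0]
  · rintro ⟨x, p, ⟨h1, k, hk⟩, rfl⟩
    apply Subtype.ext
    show FL N (Kh.mk p) 1 = Kh.mk (0, ⟨0, dy_zero⟩, (N : ℝ))
    rw [FL_mk, Kh.mk_eq]
    have e : p.2.2 + ((1 : I) : ℝ) * max ((N : ℝ) - p.2.2) 0 = N := by
      rw [max_eq_left (by linarith)]
      simp
    refine ⟨?_, e, k, ?_⟩
    · simp [fl0]
    · show p.2.1.v - 0 = k * (2 : ℝ) ^ (-⌊p.2.2 + ((1 : I) : ℝ) * max ((N : ℝ) - p.2.2) 0⌋)
      rw [e, Int.floor_intCast, hk, sub_zero]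

theorem mem_ZN (x : Kh) : ∃ N0 : ℤ, ∀ N : ℤ, N0 ≤ N → x ∈ ZN N := by
  induction x using Kh.ind with | h y c t =>
  obtain ⟨j, k, hj⟩ := c.h
  refine ⟨max ⌈t⌉ k, ?_⟩
  intro N hN
  have h1 : ⌈t⌉ ≤ N := (le_max_left _ _).trans hN
  have h2 : (k : ℤ) ≤ N := (le_max_right _ _).trans hN
  have h3 : c.v = (j : ℝ) * (2 : ℝ) ^ (-(k : ℤ)) := by
    rw [zpow_neg, zpow_natCast, ← hj]
    field_simp
  obtain ⟨l, hl⟩ := mult_le h2 j
  exact ⟨_, ⟨Int.ceil_le.mp h1, l, by rw [← hl]; exact h3⟩, rfl⟩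

theorem joined (x y : Kh) : Joined x y := by
  obtain ⟨N1, h1⟩ := mem_ZN x
  obtain ⟨N2, h2⟩ := mem_ZN y
  have hx := h1 (max N1 N2) (le_max_left _ _)
  have hy := h2 (max N1 N2) (le_max_right _ _)
  have := ZN_contractible (max N1 N2)
  obtain ⟨γ⟩ := PathConnectedSpace.joined (⟨x, hx⟩ : ZN (max N1 N2)) ⟨y, hy⟩
  exact ⟨γ.map continuous_subtype_val⟩

theorem loop_null (x : Kh) (γ : Path x x) : γ.Homotopic (Path.refl x) := by
  obtain ⟨N1, h1⟩ := mem_ZN x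
  have hb : BddAbove (Set.range (fun s => hh (γ s))) :=
    (isCompact_range (continuous_hh.comp γ.continuous)).bddAbove
  obtain ⟨B, hB⟩ := hb
  set N : ℤ := max N1 ⌈B⌉ with hN
  have hBN : ∀ s, hh (γ s) ≤ N := by
    intro s
    have h2 : hh (γ s) ≤ B := hB ⟨s, rfl⟩
    have h3 : B ≤ ⌈B⌉ := Int.le_ceil B
    have h4 : ((⌈B⌉ : ℤ) : ℝ) ≤ N := by exact_mod_cast le_max_right _ _
    linarith
  have hx : x ∈ ZN N := h1 N (le_max_left _ _)
  let A : Set Tr := {p | p.2.2 < N + 1 ∧ ∃ k : ℤ, p.2.1.v = k * (2 : ℝ) ^ (-N)}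
  let B' : Set Tr := {p | p.2.2 < N + 1 ∧ ¬ ∃ k : ℤ, p.2.1.v = k * (2 : ℝ) ^ (-N)}
  have hAo : IsOpen A := by
    have : A = {p : Tr | p.2.2 < N + 1} ∩
      {p : Tr | ∃ k : ℤ, p.2.1.v = k * (2 : ℝ) ^ (-N)} := rfl
    rw [this]
    apply IsOpen.inter
    · exact isOpen_lt (by fun_prop) continuous_const
    · have : IsOpen {c : Dy | ∃ k : ℤ, c.v = k * (2 : ℝ) ^ (-N)} := isOpen_discrete _
      exact this.preimage (continuous_fst.comp continuous_snd)
  have hBo : IsOpen B' := by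
    have : B' = {p : Tr | p.2.2 < N + 1} ∩
      {p : Tr | ¬ ∃ k : ℤ, p.2.1.v = k * (2 : ℝ) ^ (-N)} := rfl
    rw [this]
    apply IsOpen.inter
    · exact isOpen_lt (by fun_prop) continuous_const
    · have : IsOpen {c : Dy | ¬ ∃ k : ℤ, c.v = k * (2 : ℝ) ^ (-N)} := isOpen_discrete _
      exact this.preimage (continuous_fst.comp continuous_snd)
  have hfl : ∀ t : ℝ, t < N + 1 → ⌊t⌋ ≤ N := by
    intro t ht
    have h2 := Int.floor_le t
    have h3 : (⌊t⌋ : ℝ) < ((N + 1 : ℤ) : ℝ) := by push_cast; linarith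
    have h4 : ⌊t⌋ < N + 1 := by exact_mod_cast h3
    omega
  have key : ∀ p q : Tr, RR p q → p.2.2 < N + 1 → (∃ k : ℤ, p.2.1.v = k * (2 : ℝ) ^ (-N)) →
      ∃ k : ℤ, q.2.1.v = k * (2 : ℝ) ^ (-N) := by
    rintro p q ⟨-, -, k, hk⟩ hp ⟨l, hl⟩
    obtain ⟨k', hk'⟩ := mult_le (hfl _ hp) k
    refine ⟨l - k', ?_⟩
    push_cast
    rw [sub_mul, ← hl, ← hk', ← hk]
    ring
  have hAs : ∀ p q, RR p q → p ∈ A → q ∈ A := by
    rintro p q h ⟨ha, hb⟩
    exact ⟨by rw [← h.2.1]; exact ha, key p q h ha hb⟩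
  have hBs : ∀ p q, RR p q → p ∈ B' → q ∈ B' := by
    rintro p q h ⟨ha, hb⟩
    have hq : q.2.2 < N + 1 := by rw [← h.2.1]; exact ha
    exact ⟨hq, fun h2 => hb (key q p (RR_equiv.symm h) hq h2)⟩
  obtain ⟨hAo', hA⟩ := sat_open A hAo hAs
  obtain ⟨hBo', hB2⟩ := sat_open B' hBo hBs
  have hclopen : IsClopen {s : I | γ s ∈ Kh.mk '' A} := by
    constructor
    · rw [← isOpen_compl_iff]
      have : {s : I | γ s ∈ Kh.mk '' A}ᶜ = {s : I | γ s ∈ Kh.mk '' B'} := by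
        ext s
        have hs := hBN s
        simp only [Set.mem_compl_iff, Set.mem_ofPred_eq]
        generalize γ s = z at hs
        induction z using Kh.ind with | h y c t =>
        rw [hA, hB2]
        have ht : t < N + 1 := by
          rw [hh_mk] at hs
          simp only at hs
          linarith
        constructor
        · intro h
          exact ⟨ht, fun h2 => h ⟨ht, h2⟩⟩
        · rintro ⟨-, h⟩ ⟨-, h2⟩
          exact h h2
      rw [this]
      exact hBo'.preimage γ.continuous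
    · exact hAo'.preimage γ.continuous
  have huniv : {s : I | γ s ∈ Kh.mk '' A} = Set.univ := by
    apply hclopen.eq_univ
    refine ⟨0, ?_⟩
    show γ 0 ∈ Kh.mk '' A
    rw [γ.source]
    obtain ⟨p, ⟨hp1, hp2⟩, hp3⟩ := hx
    exact ⟨p, ⟨by linarith, hp2⟩, hp3⟩
  have hmem : ∀ s, γ s ∈ ZN N := by
    intro s
    have h2 : γ s ∈ Kh.mk '' A := by
      have : s ∈ {s : I | γ s ∈ Kh.mk '' A} := by rw [huniv]; trivial
      exact this
    obtain ⟨p, ⟨hp1, hp2⟩, hp3⟩ := h2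
    refine ⟨p, ⟨?_, hp2⟩, hp3⟩
    have h3 := hBN s
    rw [← hp3, hh_mk] at h3
    exact h3
  have := ZN_contractible N
  let γ' : Path (⟨x, hx⟩ : ZN N) ⟨x, hx⟩ :=
    { toFun := fun s => ⟨γ s, hmem s⟩
      continuous_toFun := γ.continuous.subtype_mk _
      source' := Subtype.ext γ.source
      target' := Subtype.ext γ.target }
  have h5 : γ'.Homotopic (Path.refl _) := SimplyConnectedSpace.paths_homotopic _ _
  have h6 := h5.map (⟨Subtype.val, continuous_subtype_val⟩ : C(ZN N, Kh))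
  have e1 : γ'.map continuous_subtype_val = γ := by
    ext s; rfl
  have e2 : (Path.refl (⟨x, hx⟩ : ZN N)).map continuous_subtype_val = Path.refl x := by
    ext s; rfl
  have h7 : (γ'.map continuous_subtype_val).Homotopic
    ((Path.refl (⟨x, hx⟩ : ZN N)).map continuous_subtype_val) := h6
  rw [e1, e2] at h7
  exact h7

instance : SimplyConnectedSpace Kh := by
  rw [simply_connected_iff_loops_nullhomotopic]
  refine ⟨⟨⟨Kh.mk (0, ⟨0, dy_zero⟩, 0)⟩, joined⟩, ?_⟩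
  intro x γ
  exact loop_null x γ

theorem main_pi1k : S_pi1K := by
  have e0 : Kh.mk (0, ⟨0, dy_zero⟩, 0) ∈ qq ⁻¹' {kk0} := by
    show ff ((0 : ℝ) - 0, 0) = kk0
    rw [ff_strip 0 _ _ (by simp)]
    unfold kk0
    congr 2
    · simp
    · apply Subtype.ext
      simp
  have := BS.fp_op
  exact Group.IsFinitelyPresented.equiv (cov.fundamentalGroupEquiv ⟨_, e0⟩).symm

end

end Pool.Agent.W417.SC
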